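import Pool.Agent.Q192.NA.Fin

/-!
# Norm attainment in Bochner spaces and the Radon-Nikodym property

Let `X` be a real or complex Banach space, `μ` a non-atomic probability measure, `1 ≤ p < ∞`
(the case `p = ∞` is allowed in the statement as well) and `1/p + 1/q = 1`. If every element of `L^p(μ, X)` attains its norm on the closed unit ball of
`L^q(μ, X*)`, then the dual `X*` has the Radon-Nikodym property.

The definitions `NonAtomic`, `EveryElementAttains` and `HasRNP` are in `Pool.Agent.Q192.NA.Defs`.
-/

set_option autoImplicit false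

open MeasureTheory Q192.NA

open scoped ENNReal

namespace Pool.Agent.Results.MP_01d06f_an.AttainmentForcesRNP

universe u v w w'

/-- Q1 of MP_01d06f_an, the answer is yes: if `μ` is a non-atomic probability measure, `1 ≤ p`,
`q` is the conjugate exponent and every element of `L^p(μ, X)` attains its norm on the closed unit
ball of `L^q(μ, X*)`, then `X*` has the Radon-Nikodym property. -/
theorem result {𝕜 : Type u} [RCLike 𝕜] {X : Type v} [NormedAddCommGroup X] [NormedSpace 𝕜 X]
    [CompleteSpace X] {Ω : Type w} [MeasurableSpace Ω] {μ : Measure Ω} [IsProbabilityMeasure μ]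
    (hμ : NonAtomic μ) {p q : ℝ≥0∞} (hp : 1 ≤ p) (hpq : p⁻¹ + q⁻¹ = 1)
    (h : EveryElementAttains 𝕜 X μ p q) : HasRNP.{w'} (StrongDual 𝕜 X) := by
  have h1 : Fact (1 ≤ p) := ⟨hp⟩
  have h2 : ENNReal.HolderConjugate p q := ⟨by rw [hpq, inv_one]⟩
  have h3 : Fact (1 ≤ q) := ⟨ENNReal.HolderConjugate.one_le q p⟩
  let i1 : NormedSpace ℝ X := NormedSpace.restrictScalars ℝ 𝕜 X
  have i2 : IsScalarTower ℝ 𝕜 X := ⟨fun a b x => by
    rw [RCLike.real_smul_eq_coe_mul, mul_smul]
    rfl⟩
  exact main hμ h

end Pool.Agent.Results.MP_01d06f_an.AttainmentForcesRNP
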